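import Pool.Agent.H698R3.AmPermFinal

/-!
# AS/FIN (helper225): finite groups are stable in permutations
-/

set_option autoImplicit false

namespace Pool.Agent.N225.AS

open Filter Topology Finset Pool.Agent.H698R3 Pool.Agent.H698R3.Amalg


theorem perm_step {F : Type} [Group F] [Fintype F] {X : Type} [Fintype X] [DecidableEq X]
    (φ : F → Equiv.Perm X) : ∃ ψ : F →* Equiv.Perm X, ∀ a, Stab.hammingDist (φ a) (ψ a) ≤
      (1 + Fintype.card F) * ∑ p : F × F, Stab.hammingDist (φ p.1 * φ p.2) (φ (p.1 * p.2)) := by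
  classical
  set Bad : Finset X := univ.filter fun x => ∃ a b : F, φ a (φ b x) ≠ φ (a * b) x with hBad
  have hnb : ∀ x, x ∉ Bad → ∀ a b, φ a (φ b x) = φ (a * b) x := by
    intro x hx a b
    by_contra h
    exact hx (mem_filter.2 ⟨mem_univ _, a, b, h⟩)
  set T : Finset X := univ.filter fun x => x ∉ Bad ∧ ∀ c, φ c x ∉ Bad with hT
  have hT1 : ∀ x ∈ T, x ∉ Bad := fun x hx => (mem_filter.1 hx).2.1
  have hT2 : ∀ x ∈ T, ∀ c, φ c x ∉ Bad := fun x hx => (mem_filter.1 hx).2.2
  have hinv : ∀ x ∈ T, ∀ a, φ a x ∈ T := by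
    intro x hx a
    refine mem_filter.2 ⟨mem_univ _, hT2 x hx a, fun c => ?_⟩
    rw [hnb x (hT1 x hx)]
    exact hT2 x hx _
  have hone : ∀ x ∈ T, φ 1 x = x := by
    intro x hx
    have h := hnb x (hT1 x hx) 1 1
    rw [mul_one] at h
    exact (φ 1).injective h
  let f : F → X → X := fun a x => if x ∈ T then φ a x else x
  have hf1 : ∀ a x, x ∈ T → f a x = φ a x := fun a x hx => if_pos hx
  have hf2 : ∀ a x, x ∉ T → f a x = x := fun a x hx => if_neg hx
  have hmul : ∀ a b x, f a (f b x) = f (a * b) x := by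
    intro a b x
    by_cases hx : x ∈ T
    · rw [hf1 b x hx, hf1 a _ (hinv x hx b), hf1 _ x hx, hnb x (hT1 x hx)]
    · rw [hf2 b x hx, hf2 a x hx, hf2 _ x hx]
  have hf1' : ∀ x, f 1 x = x := by
    intro x
    by_cases hx : x ∈ T
    · rw [hf1 1 x hx, hone x hx]
    · exact hf2 1 x hx
  let ψ : F →* Equiv.Perm X :=
    { toFun := fun a => ⟨f a, f a⁻¹, fun x => by rw [hmul, inv_mul_cancel, hf1'],
        fun x => by rw [hmul, mul_inv_cancel, hf1']⟩
      map_one' := by
        ext x
        exact hf1' x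
      map_mul' := fun a b => by
        ext x
        exact (hmul a b x).symm }
  refine ⟨ψ, fun a => ?_⟩
  -- the count
  rcases Nat.eq_zero_or_pos (Fintype.card X) with h0 | hpos
  · have h1 : Stab.hammingDist (φ a) (ψ a) = 0 := by
      unfold Stab.hammingDist
      rw [h0, Nat.cast_zero, div_zero]
    rw [h1]
    exact mul_nonneg (by positivity) (sum_nonneg fun p _ => Stab.hammingDist_nonneg _ _)
  have hX : (0 : ℝ) < Fintype.card X := by exact_mod_cast hpos
  have hbad : (Bad.card : ℝ) ≤
      (∑ p : F × F, Stab.hammingDist (φ p.1 * φ p.2) (φ (p.1 * p.2))) * Fintype.card X := by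
    have h1 : Bad ⊆ univ.biUnion fun p : F × F =>
        univ.filter fun x => (φ p.1 * φ p.2) x ≠ φ (p.1 * p.2) x := by
      intro x hx
      obtain ⟨b, c, h⟩ := (mem_filter.1 hx).2
      rw [mem_biUnion]
      exact ⟨(b, c), mem_univ _, mem_filter.2 ⟨mem_univ _, h⟩⟩
    have h2 := (card_le_card h1).trans card_biUnion_le
    have h3 : (Bad.card : ℝ) ≤ ∑ p : F × F,
        ((univ.filter fun x => (φ p.1 * φ p.2) x ≠ φ (p.1 * p.2) x).card : ℝ) := by
      exact_mod_cast h2
    refine h3.trans (le_of_eq ?_)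
    rw [sum_mul]
    refine sum_congr rfl fun p _ => ?_
    unfold Stab.hammingDist
    rw [div_mul_cancel₀ _ hX.ne']
  have hTc : ((univ.filter fun x => x ∉ T).card : ℝ) ≤ (1 + Fintype.card F) * Bad.card := by
    have h1 : (univ.filter fun x => x ∉ T) ⊆
        Bad ∪ univ.biUnion fun c : F => univ.filter fun x => φ c x ∈ Bad := by
      intro x hx
      have hx' : x ∉ T := (mem_filter.1 hx).2
      rw [mem_union]
      by_cases h : x ∈ Bad
      · exact Or.inl h
      · right
        by_contra hcon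
        apply hx'
        refine mem_filter.2 ⟨mem_univ _, h, fun c hc => hcon ?_⟩
        rw [mem_biUnion]
        exact ⟨c, mem_univ _, mem_filter.2 ⟨mem_univ _, hc⟩⟩
    have h2 : ∀ c : F, (univ.filter fun x => φ c x ∈ Bad).card ≤ Bad.card := by
      intro c
      refine card_le_card_of_injOn (φ c) ?_ (φ c).injective.injOn
      intro x hx
      exact (mem_filter.1 hx).2
    have h3 : (univ.filter fun x => x ∉ T).card ≤ Bad.card + ∑ _c : F, Bad.card :=
      (card_le_card h1).trans ((card_union_le _ _).trans (Nat.add_le_add_left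
        (card_biUnion_le.trans (sum_le_sum fun c _ => h2 c)) _))
    rw [sum_const, card_univ, smul_eq_mul] at h3
    have h4 : ((univ.filter fun x => x ∉ T).card : ℝ) ≤
        (Bad.card : ℝ) + (Fintype.card F : ℝ) * Bad.card := by exact_mod_cast h3
    linarith
  have h5 : Stab.hammingDist (φ a) (ψ a) ≤ ((univ.filter fun x => x ∉ T).card : ℝ) / Fintype.card X := by
    unfold Stab.hammingDist
    refine div_le_div_of_nonneg_right ?_ hX.le
    have h6 : (univ.filter fun x => φ a x ≠ (ψ a) x) ⊆ univ.filter fun x => x ∉ T := by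
      intro x hx
      refine mem_filter.2 ⟨mem_univ _, fun hxT => (mem_filter.1 hx).2 ?_⟩
      exact (hf1 a x hxT).symm
    exact_mod_cast card_le_card h6
  refine h5.trans ?_
  rw [div_le_iff₀ hX, mul_assoc]
  exact hTc.trans (mul_le_mul_of_nonneg_left hbad (by positivity))

theorem perm_fin (F : Type) [Group F] [Finite F] : PermutationStable F := by
  classical
  intro X _ _ φ hφ
  have := Fintype.ofFinite F
  choose ψ hψ using fun n => perm_step (φ n)
  refine ⟨ψ, fun a => ?_⟩
  refine squeeze_zero (fun n => Stab.hammingDist_nonneg _ _) (fun n => hψ n a) ?_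
  have h1 : Tendsto (fun n => ∑ p : F × F,
      Stab.hammingDist (φ n p.1 * φ n p.2) (φ n (p.1 * p.2))) atTop (𝓝 (∑ _p : F × F, 0)) :=
    tendsto_finsetSum _ fun p _ => hφ p.1 p.2
  rw [sum_const_zero] at h1
  simpa using h1.const_mul (1 + (Fintype.card F : ℝ))

end Pool.Agent.N225.AS
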