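import Pool.Agent.N225.AS.Pol
import Pool.Agent.H698R3.HsH

/-!
# AS/FIN (helper225): almost representations of finite groups (Hilbert-Schmidt norm)
-/

set_option autoImplicit false
set_option linter.unusedSectionVars false

namespace Pool.Agent.N225.AS

open Matrix Pool.Agent.H698R3.Amalg

section stk

variable {G : Type} [Group G] [Fintype G] [DecidableEq G] {X Z T : Type} [Fintype X]
  [DecidableEq X] [Fintype Z] [DecidableEq Z] [Fintype T] [DecidableEq T]

/-- the normalising factor -/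
noncomputable def sc (G : Type) [Fintype G] : ℝ := (Real.sqrt (Fintype.card G))⁻¹

theorem sc_sq (G : Type) [Group G] [Fintype G] : sc G ^ 2 * Fintype.card G = 1 := by
  have h : (0 : ℝ) < Fintype.card G := by exact_mod_cast Fintype.card_pos
  unfold sc
  rw [inv_pow, Real.sq_sqrt h.le, inv_mul_cancel₀ h.ne']

/-- stacked matrices -/
noncomputable def stk (F : G → Matrix X Z ℂ) : Matrix (X × G) Z ℂ :=
  Matrix.of fun p z => (sc G : ℂ) * F p.2 p.1 z

theorem fro_stk (F : G → Matrix X Z ℂ) : fro (stk F) = sc G ^ 2 * ∑ a, fro (F a) := by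
  unfold fro
  rw [Fintype.sum_prod_type, Finset.sum_comm, Finset.mul_sum]
  refine Finset.sum_congr rfl fun a _ => ?_
  rw [Finset.mul_sum]
  refine Finset.sum_congr rfl fun x _ => ?_
  rw [Finset.mul_sum]
  refine Finset.sum_congr rfl fun z _ => ?_
  show ‖(sc G : ℂ) * F a x z‖ ^ 2 = _
  rw [norm_mul, mul_pow, Complex.norm_real, Real.norm_eq_abs, sq_abs]

theorem stk_iso (F : G → Matrix X Z ℂ) (hF : ∀ a, (F a)ᴴ * F a = 1) : (stk F)ᴴ * stk F = 1 := by
  ext z z'
  have h1 : ((stk F)ᴴ * stk F) z z' = ((sc G ^ 2 : ℝ) : ℂ) * ∑ a, ((F a)ᴴ * F a) z z' := by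
    rw [Matrix.mul_apply, Fintype.sum_prod_type, Finset.sum_comm, Finset.mul_sum]
    refine Finset.sum_congr rfl fun a _ => ?_
    rw [Matrix.mul_apply, Finset.mul_sum]
    refine Finset.sum_congr rfl fun x _ => ?_
    rw [Matrix.conjTranspose_apply, Matrix.conjTranspose_apply]
    show star ((sc G : ℂ) * F a x z) * ((sc G : ℂ) * F a x z') = _
    have h2 : star (sc G : ℂ) = (sc G : ℂ) := Complex.conj_ofReal _
    rw [star_mul', h2]
    push_cast
    ring
  rw [h1]
  simp only [hF]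
  rw [Finset.sum_const, Finset.card_univ, nsmul_eq_mul, ← mul_assoc]
  have h3 : ((sc G ^ 2 : ℝ) : ℂ) * (Fintype.card G : ℂ) = 1 := by
    have := sc_sq G
    exact_mod_cast this
  rw [h3, one_mul]

theorem stk_mul (F : G → Matrix X Z ℂ) (B : Matrix Z T ℂ) :
    stk F * B = stk fun a => F a * B := by
  ext p t
  rw [Matrix.mul_apply]
  show ∑ z, (sc G : ℂ) * F p.2 p.1 z * B z t = (sc G : ℂ) * (F p.2 * B) p.1 t
  rw [Matrix.mul_apply, Finset.mul_sum]
  refine Finset.sum_congr rfl fun z _ => by ring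

theorem stk_sub (F F' : G → Matrix X Z ℂ) : stk F - stk F' = stk fun a => F a - F' a := by
  ext p t
  show (sc G : ℂ) * F p.2 p.1 t - (sc G : ℂ) * F' p.2 p.1 t = (sc G : ℂ) * (F p.2 - F' p.2) p.1 t
  rw [Matrix.sub_apply]
  ring

/-- the matrices of the translations -/
def tr0 (X : Type) [DecidableEq X] (b : G) : Matrix (X × G) (X × G) ℂ :=
  Matrix.of fun p q => if (p.1, b⁻¹ * p.2) = q then 1 else 0

theorem tr0_mul (b : G) (A : Matrix (X × G) Z ℂ) (p : X × G) (z : Z) :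
    (tr0 X b * A) p z = A (p.1, b⁻¹ * p.2) z := by
  rw [Matrix.mul_apply]
  show ∑ q, (if (p.1, b⁻¹ * p.2) = q then (1 : ℂ) else 0) * A q z = _
  simp

theorem tr0_stk (b : G) (F : G → Matrix X Z ℂ) :
    tr0 X b * stk F = stk fun a => F (b⁻¹ * a) := by
  ext p z
  rw [tr0_mul]
  rfl

/-- the representation by translations -/
def LL (X : Type) [Fintype X] [DecidableEq X] : G →* Matrix.unitaryGroup (X × G) ℂ :=
  mkRep (tr0 X)
    (by
      ext p q
      show (if (p.1, (1 : G)⁻¹ * p.2) = q then (1 : ℂ) else 0) = _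
      rw [inv_one, one_mul, Matrix.one_apply])
    (by
      intro g h
      ext p q
      rw [tr0_mul]
      show (if (p.1, (g * h)⁻¹ * p.2) = q then (1 : ℂ) else 0) =
        if (p.1, h⁻¹ * (g⁻¹ * p.2)) = q then (1 : ℂ) else 0
      rw [_root_.mul_inv_rev, mul_assoc])
    (by
      intro g
      ext p q
      rw [Matrix.conjTranspose_apply]
      show (if (p.1, g⁻¹⁻¹ * p.2) = q then (1 : ℂ) else 0) =
        star (if (q.1, g⁻¹ * q.2) = p then (1 : ℂ) else 0)
      have h1 : ((p.1, g⁻¹⁻¹ * p.2) = q) ↔ ((q.1, g⁻¹ * q.2) = p) := by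
        constructor
        · rintro rfl
          simp
        · rintro rfl
          simp
      by_cases h2 : (q.1, g⁻¹ * q.2) = p
      · rw [if_pos (h1.2 h2), if_pos h2, star_one]
      · rw [if_neg (fun h => h2 (h1.1 h)), if_neg h2, star_zero])

theorem LL_coe (b : G) : (LL X b).1 = tr0 X b := rfl

end stk

theorem sq_bound {r : ℝ} (h0 : 0 ≤ r) (h1 : r ≤ 1) :
    (1 / 2 < r → 1 - r ≤ 2 * (r * (1 - r))) ∧ (¬ 1 / 2 < r → r ≤ 2 * (r * (1 - r))) := by
  constructor
  · intro h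
    nlinarith
  · intro h
    push Not at h
    nlinarith

/-- the subrepresentation near the range of `V` -/
theorem sub_rep {G : Type} [Group G] [Fintype G] [DecidableEq G] {X : Type} [Fintype X]
    [DecidableEq X] (φ : G → Matrix.unitaryGroup X ℂ) (δ : ℝ) (hδ0 : 0 ≤ δ)
    (hφ : ∀ a b, fn ((φ a).1 * (φ b).1 - (φ (a * b)).1) ≤ δ * Real.sqrt (Fintype.card X)) :
    ∃ (V : Matrix (X × G) X ℂ), Vᴴ * V = 1 ∧
      (∀ b, fn ((LL X b).1 * V - V * (φ b).1) ≤ δ * Real.sqrt (Fintype.card X)) ∧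
      ∃ (S : Type) (_ : Fintype S) (_ : DecidableEq S) (J : Matrix (X × G) S ℂ)
        (σ : G →* Matrix.unitaryGroup S ℂ), Jᴴ * J = 1 ∧
        (∀ g, (LL X g).1 * J = J * (σ g).1) ∧
        |(Fintype.card S : ℝ) - Fintype.card X| ≤ 8 * δ * Fintype.card X ∧
        (Fintype.card S : ℝ) - fro (Vᴴ * J) ≤ 8 * δ * Fintype.card X := by
  classical
  set dR : ℝ := (Fintype.card X : ℝ) with hdR
  have hdR0 : 0 ≤ dR := Nat.cast_nonneg _
  set V : Matrix (X × G) X ℂ := stk fun a => ((φ a).1)ᴴ with hV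
  have hVV : Vᴴ * V = 1 := by
    apply stk_iso
    intro a
    rw [conjTranspose_conjTranspose, mul_uh]
  have hnear : ∀ b, fn ((LL X b).1 * V - V * (φ b).1) ≤ δ * Real.sqrt dR := by
    intro b
    rw [LL_coe, hV, tr0_stk, stk_mul, stk_sub]
    have h1 : fro (stk fun a => ((φ (b⁻¹ * a)).1)ᴴ - ((φ a).1)ᴴ * (φ b).1) ≤
        (δ * Real.sqrt dR) ^ 2 := by
      rw [fro_stk]
      have h2 : ∀ a, fro (((φ (b⁻¹ * a)).1)ᴴ - ((φ a).1)ᴴ * (φ b).1) ≤
          (δ * Real.sqrt dR) ^ 2 := by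
        intro a
        have h3 : fro (((φ (b⁻¹ * a)).1)ᴴ - ((φ a).1)ᴴ * (φ b).1) =
            fro ((φ b).1 * (φ (b⁻¹ * a)).1 - (φ a).1) := by
          rw [← fro_conjTranspose, conjTranspose_sub, conjTranspose_mul,
            conjTranspose_conjTranspose, conjTranspose_conjTranspose,
            ← fro_mul_left (φ b).1 (uh_mul _), Matrix.mul_sub, ← Matrix.mul_assoc, mul_uh,
            Matrix.one_mul]
        rw [h3, ← fn_sq]
        have h4 := hφ b (b⁻¹ * a)
        rw [mul_inv_cancel_left] at h4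
        exact pow_le_pow_left₀ (fn_nonneg _) h4 2
      calc sc G ^ 2 * ∑ a, fro (((φ (b⁻¹ * a)).1)ᴴ - ((φ a).1)ᴴ * (φ b).1)
          ≤ sc G ^ 2 * ∑ _a : G, (δ * Real.sqrt dR) ^ 2 :=
            mul_le_mul_of_nonneg_left (Finset.sum_le_sum fun a _ => h2 a) (by positivity)
        _ = (δ * Real.sqrt dR) ^ 2 := by
            rw [Finset.sum_const, Finset.card_univ, nsmul_eq_mul, ← mul_assoc, sc_sq, one_mul]
    unfold fn
    rw [← Real.sqrt_sq (by positivity : 0 ≤ δ * Real.sqrt dR)]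
    exact Real.sqrt_le_sqrt h1
  refine ⟨V, hVV, hnear, ?_⟩
  -- the average
  set c : ℂ := ((Fintype.card G : ℝ) : ℂ)⁻¹ with hc
  have hG : (0 : ℝ) < Fintype.card G := by exact_mod_cast Fintype.card_pos
  have hcn : ‖c‖ = (Fintype.card G : ℝ)⁻¹ := by
    rw [hc, norm_inv, Complex.norm_real, Real.norm_of_nonneg hG.le]
  have hcG : c * (Fintype.card G : ℂ) = 1 := by
    rw [hc]
    push_cast
    exact inv_mul_cancel₀ (by exact_mod_cast hG.ne')
  set U : G → Matrix (X × G) X ℂ := fun b => (LL X b).1 * V with hU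
  have hUi : ∀ b, (U b)ᴴ * U b = 1 := by
    intro b
    rw [hU]
    show ((LL X b).1 * V)ᴴ * ((LL X b).1 * V) = 1
    rw [conjTranspose_mul, Matrix.mul_assoc, ← Matrix.mul_assoc ((LL X b).1)ᴴ, uh_mul,
      Matrix.one_mul, hVV]
  have hUg : ∀ g b, (LL X g).1 * U b = U (g * b) := by
    intro g b
    show (LL X g).1 * ((LL X b).1 * V) = (LL X (g * b)).1 * V
    rw [rep_mul, Matrix.mul_assoc]
  set Q : Matrix (X × G) (X × G) ℂ := c • ∑ b, U b * (U b)ᴴ with hQ
  have hcs : star c = c := by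
    rw [hc, star_inv₀]
    congr 1
    exact Complex.conj_ofReal _
  have hQh : Q.IsHermitian := by
    show Qᴴ = Q
    rw [hQ, conjTranspose_smul, conjTranspose_sum, hcs]
    congr 1
    refine Finset.sum_congr rfl fun b _ => ?_
    rw [conjTranspose_mul, conjTranspose_conjTranspose]
  have hQc : ∀ g, (LL X g).1 * Q = Q * (LL X g).1 := by
    intro g
    have h1 : (LL X g).1 * Q * ((LL X g).1)ᴴ = Q := by
      rw [hQ, Matrix.mul_smul, Matrix.smul_mul, Matrix.mul_sum, Matrix.sum_mul]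
      congr 1
      refine Fintype.sum_equiv (Equiv.mulLeft g) _ _ fun b => ?_
      rw [Equiv.coe_mulLeft, ← hUg g b, conjTranspose_mul (LL X g).1 (U b)]
      simp only [Matrix.mul_assoc]
    calc (LL X g).1 * Q = (LL X g).1 * Q * (((LL X g).1)ᴴ * (LL X g).1) := by
          rw [uh_mul, Matrix.mul_one]
      _ = (LL X g).1 * Q * ((LL X g).1)ᴴ * (LL X g).1 := by simp only [Matrix.mul_assoc]
      _ = Q * (LL X g).1 := by rw [h1]
  -- `Q` is close to `V Vᴴ`
  have hPQ : fn (V * Vᴴ - Q) ≤ 2 * δ * Real.sqrt dR := by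
    have h1 : V * Vᴴ - Q = c • ∑ b, (V * Vᴴ - U b * (U b)ᴴ) := by
      rw [Finset.sum_sub_distrib, smul_sub, ← hQ, Finset.sum_const, Finset.card_univ,
        ← Nat.cast_smul_eq_nsmul ℂ, smul_smul, hcG, one_smul]
    rw [h1, fn_smul, hcn, inv_mul_le_iff₀ hG]
    have h2 : ∀ b ∈ (Finset.univ : Finset G), fn (V * Vᴴ - U b * (U b)ᴴ) ≤
        2 * δ * Real.sqrt dR := by
      intro b _
      set Y : Matrix (X × G) X ℂ := V * (φ b).1 with hY
      have hYi : Yᴴ * Y = 1 := by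
        rw [hY, conjTranspose_mul, Matrix.mul_assoc, ← Matrix.mul_assoc Vᴴ, hVV, Matrix.one_mul,
          uh_mul]
      have hYY : V * Vᴴ = Y * Yᴴ := by
        rw [hY, conjTranspose_mul, Matrix.mul_assoc, ← Matrix.mul_assoc (φ b).1, mul_uh,
          Matrix.one_mul]
      have h3 : V * Vᴴ - U b * (U b)ᴴ = (Y - U b) * Yᴴ + U b * (Y - U b)ᴴ := by
        rw [hYY, conjTranspose_sub]
        simp only [Matrix.sub_mul, Matrix.mul_sub]
        abel
      have h4 : fn ((Y - U b) * Yᴴ) = fn (Y - U b) := by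
        unfold fn
        rw [fro_mul_right _ (by rw [conjTranspose_conjTranspose, hYi])]
      have h5 : fn (U b * (Y - U b)ᴴ) = fn (Y - U b) := by
        unfold fn
        rw [fro_mul_left _ (hUi b), fro_conjTranspose]
      have h6 : fn (Y - U b) ≤ δ * Real.sqrt dR := by
        rw [fn_sub_comm]
        exact hnear b
      rw [h3]
      refine (fn_add_le _ _).trans ?_
      rw [h4, h5]
      linarith
    refine (fn_sum_le _ _).trans ((Finset.sum_le_sum h2).trans ?_)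
    rw [Finset.sum_const, Finset.card_univ, nsmul_eq_mul]
  have hPn : fn (V * Vᴴ) = Real.sqrt dR := by
    unfold fn
    rw [fro_mul_left _ hVV, fro_conjTranspose, fro_iso _ hVV]
  have hQn : (1 - 4 * δ) * dR ≤ fro Q := by
    have h1 : Real.sqrt dR - 2 * δ * Real.sqrt dR ≤ fn Q := by
      have h2 := fn_add_le Q (V * Vᴴ - Q)
      rw [add_sub_cancel, hPn] at h2
      linarith
    rcases le_total (2 * δ) 1 with h3 | h3
    · rw [← fn_sq]
      have h4 : (Real.sqrt dR - 2 * δ * Real.sqrt dR) ^ 2 ≤ fn Q ^ 2 := by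
        apply pow_le_pow_left₀ _ h1
        have := Real.sqrt_nonneg dR
        nlinarith
      refine le_trans ?_ h4
      have h5 := Real.sq_sqrt hdR0
      have h6 : (Real.sqrt dR - 2 * δ * Real.sqrt dR) ^ 2 =
          (1 - 2 * δ) ^ 2 * Real.sqrt dR ^ 2 := by ring
      rw [h6, h5]
      nlinarith [mul_nonneg (sq_nonneg δ) hdR0]
    · refine le_trans ?_ (fro_nonneg Q)
      nlinarith
  -- diagonalise
  obtain ⟨W, p, hW⟩ := simdiag (fun _ : Unit => Q) (fun _ => hQh) (fun _ _ => rfl)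
  have hW' : Q * W.1 = W.1 * diagonal (fun y => p y ()) := hW ()
  have hWQW0 : (W.1)ᴴ * Q * W.1 = diagonal (fun y => p y ()) := by
    rw [Matrix.mul_assoc, hW', ← Matrix.mul_assoc, uh_mul, Matrix.one_mul]
  set r : X × G → ℝ := fun x => (Fintype.card G : ℝ)⁻¹ * ∑ b, cn ((U b)ᴴ * W.1) x with hr
  have hpr : ∀ x, p x () = (r x : ℂ) := by
    intro x
    have h1 : diagonal (fun y => p y ()) x x = ((W.1)ᴴ * Q * W.1) x x := by rw [hWQW0]
    rw [Matrix.diagonal_apply_eq] at h1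
    have h2 : (W.1)ᴴ * Q * W.1 = c • ∑ b, ((U b)ᴴ * W.1)ᴴ * ((U b)ᴴ * W.1) := by
      rw [hQ, Matrix.mul_smul, Matrix.smul_mul, Matrix.mul_sum, Matrix.sum_mul]
      congr 1
      refine Finset.sum_congr rfl fun b _ => ?_
      rw [conjTranspose_mul (U b)ᴴ W.1, conjTranspose_conjTranspose]
      simp only [Matrix.mul_assoc]
    rw [h1, h2, Matrix.smul_apply, Matrix.sum_apply, hr, smul_eq_mul, hc]
    push_cast
    congr 1
    refine Finset.sum_congr rfl fun b _ => ?_
    rw [Matrix.mul_apply, cn]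
    push_cast
    refine Finset.sum_congr rfl fun y _ => ?_
    rw [Matrix.conjTranspose_apply, Complex.star_def, ← Complex.normSq_eq_conj_mul_self,
      Complex.normSq_eq_norm_sq]
    push_cast
    rfl
  have hWQW : (W.1)ᴴ * Q * W.1 = diagonal (fun y => (r y : ℂ)) := by
    rw [hWQW0]; congr 1; funext y; exact hpr y
  have hcn0 : ∀ (A : Matrix X (X × G) ℂ) (x : X × G), 0 ≤ cn A x := fun A x => by
    unfold cn; positivity
  have hr0 : ∀ x, 0 ≤ r x := fun x => by
    rw [hr]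
    exact mul_nonneg (by positivity) (Finset.sum_nonneg fun b _ => hcn0 _ _)
  have hr1 : ∀ x, r x ≤ 1 := by
    intro x
    rw [hr]
    show (Fintype.card G : ℝ)⁻¹ * ∑ b, cn ((U b)ᴴ * W.1) x ≤ 1
    rw [inv_mul_le_iff₀ hG]
    have h1 : ∀ b ∈ (Finset.univ : Finset G), cn ((U b)ᴴ * W.1) x ≤ 1 := by
      intro b _
      rw [cn_eq, Matrix.mul_assoc]
      refine (fro_adj_le (U b) (hUi b) _).trans ?_
      rw [fro_mul_left _ (uh_mul W), fro_unit]
    refine (Finset.sum_le_sum h1).trans ?_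
    rw [Finset.sum_const, Finset.card_univ, nsmul_eq_mul]
  have hsum1 : ∑ x, r x = dR := by
    rw [hr]
    show ∑ x, (Fintype.card G : ℝ)⁻¹ * ∑ b, cn ((U b)ᴴ * W.1) x = dR
    rw [← Finset.mul_sum, Finset.sum_comm]
    have h1 : ∀ b : G, ∑ x, cn ((U b)ᴴ * W.1) x = dR := by
      intro b
      rw [← fro_cn, fro_mul_right _ (mul_uh W), fro_conjTranspose, fro_iso _ (hUi b)]
    simp only [h1]
    rw [Finset.sum_const, Finset.card_univ, nsmul_eq_mul, ← mul_assoc, inv_mul_cancel₀ hG.ne',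
      one_mul]
  have hsum2 : ∑ x, r x ^ 2 = fro Q := by
    rw [← fro_mul_right W.1 (mul_uh W),
      ← fro_mul_left ((W.1)ᴴ) (by rw [conjTranspose_conjTranspose, mul_uh]), ← Matrix.mul_assoc,
      hWQW]
    unfold fro
    refine Finset.sum_congr rfl fun x _ => ?_
    rw [Finset.sum_eq_single x]
    · rw [Matrix.diagonal_apply_eq, Complex.norm_real, Real.norm_eq_abs, sq_abs]
    · intro z _ hz
      rw [Matrix.diagonal_apply_ne _ (Ne.symm hz), norm_zero]; norm_num
    · intro h; exact absurd (Finset.mem_univ x) h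
  have heta : ∑ x, 2 * (r x * (1 - r x)) ≤ 8 * δ * dR := by
    have h1 : ∑ x, 2 * (r x * (1 - r x)) = 2 * (∑ x, r x - ∑ x, r x ^ 2) := by
      rw [← Finset.sum_sub_distrib, Finset.mul_sum]
      refine Finset.sum_congr rfl fun x _ => by ring
    rw [h1, hsum1, hsum2]
    nlinarith
  -- the block
  set τ0 := cjR W (LL X (G := G)) with hτ0
  have hblk0 : ∀ g x y, r x ≠ r y → (τ0 g).1 x y = 0 := by
    intro g x y hxy
    refine zero_of_commute (ι := Unit) _ (fun y => (r y : ℂ)) ?_ x y (by exact_mod_cast hxy)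
    rw [hτ0, cjR_coe, ← hWQW]
    calc (W.1)ᴴ * (LL X g).1 * W.1 * ((W.1)ᴴ * Q * W.1)
        = (W.1)ᴴ * (LL X g).1 * (W.1 * (W.1)ᴴ) * Q * W.1 := by simp only [Matrix.mul_assoc]
      _ = (W.1)ᴴ * ((LL X g).1 * Q) * W.1 := by
          rw [mul_uh, Matrix.mul_one]; simp only [Matrix.mul_assoc]
      _ = (W.1)ᴴ * (Q * (LL X g).1) * W.1 := by rw [hQc]
      _ = (W.1)ᴴ * Q * (W.1 * (W.1)ᴴ) * (LL X g).1 * W.1 := by
          rw [mul_uh, Matrix.mul_one]; simp only [Matrix.mul_assoc]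
      _ = _ := by simp only [Matrix.mul_assoc]
  let pb : X × G → Bool := fun y => decide (1 / 2 < r y)
  have hblk : ∀ g x y, pb x ≠ pb y → (τ0 g).1 x y = 0 := by
    intro g x y hxy
    refine hblk0 g x y fun h => hxy ?_
    show decide (1 / 2 < r x) = decide (1 / 2 < r y)
    rw [h]
  let S : Type := {y // pb y = true}
  let J : Matrix (X × G) S ℂ := W.1 * Jm (Subtype.val : S → X × G)
  have hJd : J = W.1 * Jm (Subtype.val : S → X × G) := rfl
  have hJi : Jᴴ * J = 1 := by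
    rw [hJd, conjTranspose_mul, Matrix.mul_assoc, ← Matrix.mul_assoc (W.1)ᴴ, uh_mul,
      Matrix.one_mul, Jm_isometry _ Subtype.val_injective]
  have hJe : ∀ g, (LL X g).1 * J = J * (blk τ0 pb hblk true g).1 := by
    intro g
    rw [hJd, ← Matrix.mul_assoc, ← cjR_inter, Matrix.mul_assoc, blk_inter, Matrix.mul_assoc]
  have hSsum : ∀ f : X × G → ℝ, ∑ s : S, f s.1 = ∑ x, if 1 / 2 < r x then f x else 0 := by
    intro f
    rw [← sum_fib pb true (fun x => if 1 / 2 < r x then f x else 0)]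
    · refine Finset.sum_congr rfl fun s _ => ?_
      rw [if_pos (of_decide_eq_true s.2)]
    · intro z hz
      rw [if_neg]
      intro h
      exact hz (decide_eq_true h)
  have hcardS : (Fintype.card S : ℝ) = ∑ x, if 1 / 2 < r x then (1 : ℝ) else 0 := by
    rw [← hSsum (fun _ => 1)]
    simp
  refine ⟨S, inferInstance, inferInstance, J, blk τ0 pb hblk true, hJi, hJe, ?_, ?_⟩
  · refine le_trans ?_ heta
    rw [hcardS, ← hsum1, ← Finset.sum_sub_distrib]
    refine (Finset.abs_sum_le_sum_abs _ _).trans (Finset.sum_le_sum fun x _ => ?_)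
    have h1 := sq_bound (hr0 x) (hr1 x)
    by_cases h : 1 / 2 < r x
    · rw [if_pos h, abs_of_nonneg (by linarith [hr1 x])]
      exact h1.1 h
    · rw [if_neg h, zero_sub, abs_neg, abs_of_nonneg (hr0 x)]
      exact h1.2 h
  · have h1 : fro (Vᴴ * J) = ∑ s : S, r s.1 := by
      have h2 : ∀ b, fro ((U b)ᴴ * J) = fro (Vᴴ * J) := by
        intro b
        have h3 : (U b)ᴴ * J = Vᴴ * J * (blk τ0 pb hblk true b⁻¹).1 := by
          show ((LL X b).1 * V)ᴴ * J = _
          rw [conjTranspose_mul, Matrix.mul_assoc, Matrix.mul_assoc, ← hJe, rep_inv]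
        rw [h3, fro_mul_right _ (mul_uh _)]
      have h4 : ∀ b, fro ((U b)ᴴ * J) = ∑ s : S, cn ((U b)ᴴ * W.1) s.1 := by
        intro b
        rw [fro_cn]
        refine Finset.sum_congr rfl fun s _ => ?_
        rw [hJd, ← Matrix.mul_assoc, mul_Jm]
        rfl
      have h5 : fro (Vᴴ * J) = (Fintype.card G : ℝ)⁻¹ * ∑ b : G, fro ((U b)ᴴ * J) := by
        simp only [h2]
        rw [Finset.sum_const, Finset.card_univ, nsmul_eq_mul, ← mul_assoc,
          inv_mul_cancel₀ hG.ne', one_mul]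
      rw [h5]
      simp only [h4]
      rw [Finset.sum_comm, Finset.mul_sum]
    rw [h1, hSsum, hcardS, ← Finset.sum_sub_distrib]
    refine le_trans (Finset.sum_le_sum fun x _ => ?_) heta
    have h1 := sq_bound (hr0 x) (hr1 x)
    by_cases h : 1 / 2 < r x
    · rw [if_pos h, if_pos h]
      exact h1.1 h
    · rw [if_neg h, if_neg h, sub_zero]
      have := mul_nonneg (hr0 x) (sub_nonneg.2 (hr1 x))
      linarith

/-- almost representations of finite groups are close to representations -/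
theorem hs_step {G : Type} [Group G] [Fintype G] {X : Type} [Fintype X]
    [DecidableEq X] (φ : G → Matrix.unitaryGroup X ℂ) (δ : ℝ) (hδ0 : 0 ≤ δ)
    (hφ : ∀ a b, fn ((φ a).1 * (φ b).1 - (φ (a * b)).1) ≤ δ * Real.sqrt (Fintype.card X)) :
    ∃ ψ : G →* Matrix.unitaryGroup X ℂ, ∀ g, fn ((φ g).1 - (ψ g).1) ≤
      (2 * Real.sqrt (8 * δ * (Fintype.card G + 1)) + δ) * Real.sqrt (Fintype.card X) := by
  classical
  obtain ⟨V, hVV, hnear, S, _, _, J, σ, hJi, hJe, hS1, hS2⟩ := sub_rep φ δ hδ0 hφ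
  set dR : ℝ := (Fintype.card X : ℝ) with hdR
  have hdR0 : 0 ≤ dR := Nat.cast_nonneg _
  have hG1 : (1 : ℝ) ≤ Fintype.card G := by exact_mod_cast Fintype.card_pos
  have hδd : 0 ≤ 8 * δ * dR := by positivity
  obtain ⟨Y₁, _, _, K, σ₁, hKi, hKe, hY1, hY2, hY3⟩ : ∃ (Y₁ : Type) (_ : Fintype Y₁)
      (_ : DecidableEq Y₁) (K : Matrix (X × G) Y₁ ℂ) (σ₁ : G →* Matrix.unitaryGroup Y₁ ℂ),
      Kᴴ * K = 1 ∧ (∀ g, (LL X g).1 * K = K * (σ₁ g).1) ∧
      Fintype.card Y₁ ≤ Fintype.card X ∧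
      dR - Fintype.card Y₁ ≤ 8 * δ * dR * Fintype.card G ∧
      (Fintype.card Y₁ : ℝ) - fro (Vᴴ * K) ≤ 8 * δ * dR := by
    rcases le_or_gt (Fintype.card S) (Fintype.card X) with h | h
    · refine ⟨S, inferInstance, inferInstance, J, σ, hJi, hJe, h, ?_, hS2⟩
      have h1 := (abs_le.1 hS1).1
      nlinarith
    · obtain ⟨k, M, σ₁, hM, hMe, hk1, hk2⟩ := shrink σ (Fintype.card X) h.le
      refine ⟨Fin k, inferInstance, inferInstance, J * M, σ₁, ?_, ?_, ?_, ?_, ?_⟩
      · rw [conjTranspose_mul, Matrix.mul_assoc, ← Matrix.mul_assoc Jᴴ, hJi, Matrix.one_mul, hM]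
      · intro g
        rw [← Matrix.mul_assoc, hJe, Matrix.mul_assoc, hMe, Matrix.mul_assoc]
      · rw [Fintype.card_fin]
        exact hk1
      · rw [Fintype.card_fin]
        have h1 := (abs_le.1 hS1).2
        have h2 : (Fintype.card X : ℝ) + 1 ≤ Fintype.card S := by exact_mod_cast h
        have h3 : (Fintype.card X : ℝ) ≤ k + Fintype.card G := by exact_mod_cast hk2
        have h4 : 1 ≤ 8 * δ * dR := by linarith
        nlinarith
      · have hJM : (J * M)ᴴ * (J * M) = 1 := by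
          rw [conjTranspose_mul, Matrix.mul_assoc, ← Matrix.mul_assoc Jᴴ, hJi, Matrix.one_mul, hM]
        have h1 := fro_split V hVV (J * M)
        have h2 := fro_split V hVV J
        have h3 := fro_mul_iso M hM ((1 - V * Vᴴ) * J)
        rw [Matrix.mul_assoc, h1, h2, fro_iso _ hJM, fro_iso _ hJi] at h3
        linarith
  -- the unitary
  have hcard : Fintype.card (Y₁ ⊕ Fin (Fintype.card X - Fintype.card Y₁)) = Fintype.card X := by
    rw [Fintype.card_sum, Fintype.card_fin]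
    omega
  set Jl : Matrix (Y₁ ⊕ Fin (Fintype.card X - Fintype.card Y₁)) Y₁ ℂ := Jm Sum.inl with hJl
  have hJli : Jlᴴ * Jl = 1 := Jm_isometry _ Sum.inl_injective
  set A : Matrix X (Y₁ ⊕ Fin (Fintype.card X - Fintype.card Y₁)) ℂ := Vᴴ * K * Jlᴴ with hA
  have hcon : ∀ v : Matrix (Y₁ ⊕ Fin (Fintype.card X - Fintype.card Y₁)) Unit ℂ,
      fro (A * v) ≤ fro v := by
    intro v
    have h1 : A * v = Vᴴ * (K * (Jlᴴ * v)) := by
      rw [hA]; simp only [Matrix.mul_assoc]
    rw [h1]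
    refine (fro_adj_le V hVV _).trans ?_
    rw [fro_mul_left K hKi]
    exact fro_adj_le Jl hJli v
  have hfroA : fro A = fro (Vᴴ * K) := by
    rw [hA, fro_mul_right _ (by rw [conjTranspose_conjTranspose, hJli])]
  obtain ⟨u, hu1, hu2, hu3⟩ := polar hcard A hcon
  set τ : G →* Matrix.unitaryGroup (Y₁ ⊕ Fin (Fintype.card X - Fintype.card Y₁)) ℂ :=
    dsR σ₁ 1 with hτ
  have hτe : ∀ g, (τ g).1 * Jl = Jl * (σ₁ g).1 := fun g => ds_inl σ₁ 1 g
  have hω : fro (u - A) ≤ 8 * δ * (Fintype.card G + 1) * dR := by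
    refine hu3.trans ?_
    rw [hcard, hfroA]
    have : 8 * δ * (Fintype.card G + 1) * dR = 8 * δ * dR * Fintype.card G + 8 * δ * dR := by ring
    rw [this]
    linarith
  have hfnω : fn (u - A) ≤ Real.sqrt (8 * δ * (Fintype.card G + 1)) * Real.sqrt dR := by
    rw [← Real.sqrt_mul (by positivity)]
    exact Real.sqrt_le_sqrt hω
  refine ⟨cjM u hu1 hu2 τ, fun g => ?_⟩
  have h1 : fn ((φ g).1 - (cjM u hu1 hu2 τ g).1) = fn ((φ g).1 * u - u * (τ g).1) := by
    unfold fn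
    rw [← fro_mul_right u hu2, Matrix.sub_mul, cjM_inter]
  rw [h1]
  have h2 : (φ g).1 * u - u * (τ g).1 = (φ g).1 * (u - A) + ((φ g).1 * A - A * (τ g).1) +
      (A - u) * (τ g).1 := by
    simp only [Matrix.mul_sub, Matrix.sub_mul]
    abel
  have h3 : fn ((φ g).1 * (u - A)) = fn (u - A) := fn_left _ _
  have h4 : fn ((A - u) * (τ g).1) = fn (u - A) := by
    rw [fn_right, fn_sub_comm]
  have h5 : fn ((φ g).1 * A - A * (τ g).1) ≤ δ * Real.sqrt dR := by
    have h6 : A * (τ g).1 = Vᴴ * (LL X g).1 * K * Jlᴴ := by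
      have h7 : Jlᴴ * (τ g).1 = (σ₁ g).1 * Jlᴴ := inter_adj (π := τ) (σ := σ₁) (J := Jl) hτe g
      rw [hA, Matrix.mul_assoc, h7, ← Matrix.mul_assoc, Matrix.mul_assoc Vᴴ K, ← hKe]
      simp only [Matrix.mul_assoc]
    have h8 : (φ g).1 * A - A * (τ g).1 = ((φ g).1 * Vᴴ - Vᴴ * (LL X g).1) * K * Jlᴴ := by
      rw [h6, hA]
      simp only [Matrix.sub_mul, Matrix.mul_assoc]
    have h9 : fro ((φ g).1 * A - A * (τ g).1) ≤ fro ((LL X g).1 * V - V * (φ g).1) := by
      rw [h8, fro_mul_right _ (by rw [conjTranspose_conjTranspose, hJli])]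
      refine (fro_mul_iso K hKi _).trans (le_of_eq ?_)
      have h10 : (LL X g).1 * V - V * (φ g).1 =
          (LL X g).1 * ((φ g).1 * Vᴴ - Vᴴ * (LL X g).1)ᴴ * (φ g).1 := by
        rw [conjTranspose_sub, conjTranspose_mul, conjTranspose_mul, conjTranspose_conjTranspose,
          Matrix.mul_sub, Matrix.sub_mul]
        have e1 : (LL X g).1 * (V * ((φ g).1)ᴴ) * (φ g).1 = (LL X g).1 * V := by
          rw [Matrix.mul_assoc, Matrix.mul_assoc V, uh_mul, Matrix.mul_one]
        have e2 : (LL X g).1 * (((LL X g).1)ᴴ * V) * (φ g).1 = V * (φ g).1 := by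
          rw [← Matrix.mul_assoc, mul_uh, Matrix.one_mul]
        rw [e1, e2]
      rw [h10, fro_mul_right _ (mul_uh _), fro_mul_left _ (uh_mul _), fro_conjTranspose]
    refine le_trans ?_ (hnear g)
    exact Real.sqrt_le_sqrt h9
  rw [h2]
  refine (fn_add_le _ _).trans ?_
  have h6 := fn_add_le ((φ g).1 * (u - A)) ((φ g).1 * A - A * (τ g).1)
  rw [h3] at h6
  rw [h4]
  have h7 : (2 * Real.sqrt (8 * δ * (Fintype.card G + 1)) + δ) * Real.sqrt dR =
    2 * (Real.sqrt (8 * δ * (Fintype.card G + 1)) * Real.sqrt dR) + δ * Real.sqrt dR := by ring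
  rw [h7]
  linarith

end Pool.Agent.N225.AS
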