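import Pool.Agent.N139.AS.Stm
import Pool.Agent.N225.AS.Main
import Pool.Agent.N225.AS.FinP

/-!
# AS/FIN (helper225): finite groups are stable in permutations and in Hilbert-Schmidt norm
-/

set_option autoImplicit false

namespace Pool.Agent.N225.AS

open Filter Topology Matrix Pool.Agent.H698R3.Amalg

theorem hs_fin (F : Type) [Group F] [Finite F] : HilbertSchmidtStable F := by
  classical
  intro X _ _ φ hφ
  have := Fintype.ofFinite F
  -- the error
  obtain ⟨D, hD⟩ : ∃ D : ℕ → F × F → ℝ, ∀ n p, D n p =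
    hsDist (φ n p.1 * φ n p.2).1 (φ n (p.1 * p.2)).1 := ⟨_, fun _ _ => rfl⟩
  obtain ⟨δ, hδ⟩ : ∃ δ : ℕ → ℝ, ∀ n, δ n = ∑ p : F × F, D n p := ⟨_, fun _ => rfl⟩
  have hnn : ∀ (Y : Type) [Fintype Y] (A B : Matrix Y Y ℂ), 0 ≤ hsDist A B := fun Y _ A B =>
    Real.sqrt_nonneg _
  have hD0 : ∀ n p, 0 ≤ D n p := fun n p => by
    rw [hD]
    exact hnn _ _ _
  have hδ0 : ∀ n, 0 ≤ δ n := fun n => by
    rw [hδ]
    exact Finset.sum_nonneg fun p _ => hD0 n p
  have hδt : Tendsto δ atTop (𝓝 0) := by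
    have h1 : Tendsto (fun n => ∑ p : F × F, D n p) atTop (𝓝 (∑ _p : F × F, 0)) := by
      refine tendsto_finsetSum _ fun p _ => ?_
      have h2 := hφ p.1 p.2
      refine h2.congr fun n => ?_
      rw [hD]
    rw [Finset.sum_const_zero] at h1
    refine h1.congr fun n => ?_
    rw [hδ]
  have hfn : ∀ n a b, fn ((φ n a).1 * (φ n b).1 - (φ n (a * b)).1) ≤
      δ n * Real.sqrt (Fintype.card (X n)) := by
    intro n a b
    have h1 : D n (a, b) ≤ δ n := by
      rw [hδ]
      exact Finset.single_le_sum (f := D n) (fun p _ => hD0 n p) (Finset.mem_univ (a, b))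
    rw [hD, hsDist_eq] at h1
    have h4 : (φ n (a, b).1 * φ n (a, b).2).1 - (φ n ((a, b).1 * (a, b).2)).1 =
        (φ n a).1 * (φ n b).1 - (φ n (a * b)).1 := rfl
    rw [h4] at h1
    rcases Nat.eq_zero_or_pos (Fintype.card (X n)) with h0 | hpos
    · have h2 : fn ((φ n a).1 * (φ n b).1 - (φ n (a * b)).1) = 0 := by
        have hE : IsEmpty (X n) := Fintype.card_eq_zero_iff.1 h0
        unfold fn fro
        simp
      rw [h2]
      exact mul_nonneg (hδ0 n) (Real.sqrt_nonneg _)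
    · have h3 : 0 < Real.sqrt (Fintype.card (X n)) := Real.sqrt_pos.2 (by exact_mod_cast hpos)
      rw [div_le_iff₀ h3] at h1
      exact h1
  choose ψ hψ using fun n => hs_step (φ n) (δ n) (hδ0 n) (hfn n)
  refine ⟨ψ, fun a => ?_⟩
  have hbd : ∀ n, hsDist (φ n a).1 (ψ n a).1 ≤
      2 * Real.sqrt (8 * δ n * (Fintype.card F + 1)) + δ n := by
    intro n
    rw [hsDist_eq]
    rcases Nat.eq_zero_or_pos (Fintype.card (X n)) with h0 | hpos
    · rw [h0, Nat.cast_zero, Real.sqrt_zero, div_zero]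
      have := hδ0 n
      positivity
    · have h3 : 0 < Real.sqrt (Fintype.card (X n)) := Real.sqrt_pos.2 (by exact_mod_cast hpos)
      rw [div_le_iff₀ h3]
      exact hψ n a
  refine squeeze_zero (fun n => hnn _ _ _) hbd ?_
  have h1 : Tendsto (fun n => 2 * Real.sqrt (8 * δ n * (Fintype.card F + 1)) + δ n) atTop
      (𝓝 (2 * Real.sqrt (8 * 0 * (Fintype.card F + 1)) + 0)) :=
    ((((hδt.const_mul 8).mul_const _).sqrt).const_mul 2).add hδt
  simpa using h1

theorem t_FIN : Pool.Agent.N139.AS.S_FIN := fun F _ _ => ⟨perm_fin F, hs_fin F⟩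

end Pool.Agent.N225.AS
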