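import Pool.Agent.H698R3.HsAdjust
import Pool.Agent.H698R5.Comm

/-!
# AS/FIN (helper225): unitary part of a contraction, large subrepresentations
-/

set_option autoImplicit false

namespace Pool.Agent.N225.AS

open Matrix WithLp Pool.Agent.H698R3.Amalg
open Pool.Agent.H698R5 (pj cm cm_iso pj_eq pj_mem pj_id)

section basic

variable {X Y Z : Type} [Fintype X] [Fintype Y] [Fintype Z]

theorem fro_split [DecidableEq X] [DecidableEq Y] (J : Matrix X Y ℂ) (hJ : Jᴴ * J = 1)
    (M : Matrix X Z ℂ) : fro ((1 - J * Jᴴ) * M) = fro M - fro (Jᴴ * M) := by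
  have h2 : ((1 - J * Jᴴ) * M)ᴴ * ((1 - J * Jᴴ) * M) = Mᴴ * M - (Jᴴ * M)ᴴ * (Jᴴ * M) := by
    have hJ' : ∀ N : Matrix Y Z ℂ, Jᴴ * (J * N) = N := by
      intro N; rw [← Matrix.mul_assoc, hJ, Matrix.one_mul]
    rw [conjTranspose_mul, conjTranspose_mul, conjTranspose_sub, conjTranspose_mul,
      conjTranspose_conjTranspose, conjTranspose_one]
    simp only [Matrix.sub_mul, Matrix.mul_sub, Matrix.one_mul, Matrix.mul_assoc, Matrix.mul_one,
      hJ']
    abel
  rw [fro_eq_re, fro_eq_re, fro_eq_re, h2, trace_sub, Complex.sub_re]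

theorem fro_adj_le [DecidableEq X] [DecidableEq Y] (J : Matrix X Y ℂ) (hJ : Jᴴ * J = 1)
    (M : Matrix X Z ℂ) : fro (Jᴴ * M) ≤ fro M := by
  have := fro_nonneg ((1 - J * Jᴴ) * M)
  rw [fro_split J hJ] at this
  linarith

/-- right multiplication by an isometry -/
theorem fro_mul_iso [DecidableEq X] [DecidableEq Y] (J : Matrix X Y ℂ) (hJ : Jᴴ * J = 1)
    (M : Matrix Z X ℂ) : fro (M * J) ≤ fro M := by
  rw [← fro_conjTranspose (M * J), conjTranspose_mul, ← fro_conjTranspose M]
  exact fro_adj_le J hJ _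

theorem fro_iso [DecidableEq Y] (J : Matrix X Y ℂ) (hJ : Jᴴ * J = 1) :
    fro J = Fintype.card Y := by
  rw [fro_eq_re, hJ, Matrix.trace_one, Complex.natCast_re]

end basic

/-- the unitary part of a contraction -/
theorem polar {X Y : Type} [Fintype X] [DecidableEq X] [Fintype Y] [DecidableEq Y]
    (hc : Fintype.card Y = Fintype.card X) (A : Matrix X Y ℂ)
    (hA : ∀ v : Matrix Y Unit ℂ, fro (A * v) ≤ fro v) :
    ∃ u : Matrix X Y ℂ, uᴴ * u = 1 ∧ u * uᴴ = 1 ∧ fro (u - A) ≤ Fintype.card Y - fro A := by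
  classical
  set B := Aᴴ * A with hB
  have hBh : B.IsHermitian := by
    show Bᴴ = B
    rw [hB, conjTranspose_mul, conjTranspose_conjTranspose]
  obtain ⟨W, p, hW⟩ := simdiag (fun _ : Unit => B) (fun _ => hBh) (fun _ _ => rfl)
  have hW' : B * W.1 = W.1 * diagonal (fun y => p y ()) := hW ()
  have hWBW0 : (W.1)ᴴ * B * W.1 = diagonal (fun y => p y ()) := by
    rw [Matrix.mul_assoc, hW', ← Matrix.mul_assoc, uh_mul, Matrix.one_mul]
  set C := A * W.1 with hC
  have hCC0 : Cᴴ * C = diagonal (fun y => p y ()) := by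
    rw [← hWBW0, hC, hB, conjTranspose_mul]
    simp only [Matrix.mul_assoc]
  set r : Y → ℝ := fun y => ∑ x, ‖C x y‖ ^ 2 with hr
  have hpr : ∀ y, p y () = (r y : ℂ) := by
    intro y
    have h1 : diagonal (fun y => p y ()) y y = (Cᴴ * C) y y := by rw [hCC0]
    rw [Matrix.diagonal_apply_eq] at h1
    rw [h1, Matrix.mul_apply, hr]
    push_cast
    refine Finset.sum_congr rfl fun x _ => ?_
    rw [Matrix.conjTranspose_apply, Complex.star_def, ← Complex.normSq_eq_conj_mul_self,
      Complex.normSq_eq_norm_sq]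
    push_cast
    rfl
  have hCC : Cᴴ * C = diagonal (fun y => (r y : ℂ)) := by
    rw [hCC0]; congr 1; funext y; exact hpr y
  have hr0 : ∀ y, 0 ≤ r y := fun y => by rw [hr]; positivity
  have hcn : ∀ y, r y = cn C y := fun y => rfl
  have hr1 : ∀ y, r y ≤ 1 := by
    intro y
    rw [hcn, cn_eq, hC, Matrix.mul_assoc]
    refine (hA _).trans ?_
    rw [fro_mul_left _ (uh_mul W), fro_unit]
  have hfroA : fro A = ∑ y, r y := by
    rw [← fro_mul_right W.1 (mul_uh W), fro_cn, ← hC]
    rfl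
  -- the isometry
  let T : Type := {y // r y ≠ 0}
  let J : Matrix X T ℂ := Matrix.of fun x y => C x y.1 * (((Real.sqrt (r y.1))⁻¹ : ℝ) : ℂ)
  have hJJ : Jᴴ * J = 1 := by
    ext y y'
    have h1 : (Jᴴ * J) y y' = (((Real.sqrt (r y.1))⁻¹ : ℝ) : ℂ) * (Cᴴ * C) y.1 y'.1 *
        (((Real.sqrt (r y'.1))⁻¹ : ℝ) : ℂ) := by
      rw [Matrix.mul_apply, Matrix.mul_apply, Finset.mul_sum, Finset.sum_mul]
      refine Finset.sum_congr rfl fun x _ => ?_
      rw [Matrix.conjTranspose_apply, Matrix.conjTranspose_apply]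
      show star (C x y.1 * (((Real.sqrt (r y.1))⁻¹ : ℝ) : ℂ)) *
        (C x y'.1 * (((Real.sqrt (r y'.1))⁻¹ : ℝ) : ℂ)) = _
      have h2 : star ((((Real.sqrt (r y.1))⁻¹ : ℝ) : ℂ)) = (((Real.sqrt (r y.1))⁻¹ : ℝ) : ℂ) :=
        Complex.conj_ofReal _
      rw [star_mul', h2]
      ring
    rw [h1, hCC, Matrix.diagonal_apply, Matrix.one_apply]
    by_cases h : y = y'
    · subst h
      rw [if_pos rfl, if_pos rfl]
      have h3 : Real.sqrt (r y.1) ≠ 0 := by
        rw [Real.sqrt_ne_zero (hr0 _)]; exact y.2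
      have h2 : (Real.sqrt (r y.1))⁻¹ * r y.1 * (Real.sqrt (r y.1))⁻¹ = 1 := by
        field_simp
        exact (Real.sq_sqrt (hr0 _)).symm
      exact_mod_cast h2
    · rw [if_neg (fun h' => h (Subtype.ext h')), if_neg h, mul_zero, zero_mul]
  obtain ⟨V, hV1, hV2, hV3⟩ := complete J hJJ (Subtype.val : T → Y) Subtype.val_injective hc
  have hCV : C = V * diagonal (fun y => ((Real.sqrt (r y) : ℝ) : ℂ)) := by
    ext x y
    rw [Matrix.mul_diagonal]
    by_cases hy : r y = 0
    · rw [hy, Real.sqrt_zero, Complex.ofReal_zero, mul_zero]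
      have h1 : ∑ x, ‖C x y‖ ^ 2 = 0 := hy
      rw [Finset.sum_eq_zero_iff_of_nonneg (fun x _ => by positivity)] at h1
      have h2 := h1 x (Finset.mem_univ _)
      simpa using h2
    · have h1 := congrFun (congrFun hV3 x) ⟨y, hy⟩
      have h2 : V x y = C x y * (((Real.sqrt (r y))⁻¹ : ℝ) : ℂ) := h1
      rw [h2, mul_assoc]
      have h4 : Real.sqrt (r y) ≠ 0 := by
        rw [Real.sqrt_ne_zero (hr0 _)]; exact hy
      have h5 : ((((Real.sqrt (r y))⁻¹ : ℝ) : ℂ) * ((Real.sqrt (r y) : ℝ) : ℂ)) = 1 := by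
        have : (Real.sqrt (r y))⁻¹ * Real.sqrt (r y) = 1 := inv_mul_cancel₀ h4
        exact_mod_cast this
      rw [h5, mul_one]
  refine ⟨V * (W.1)ᴴ, ?_, ?_, ?_⟩
  · rw [conjTranspose_mul, conjTranspose_conjTranspose, Matrix.mul_assoc,
      ← Matrix.mul_assoc Vᴴ, hV1, Matrix.one_mul, mul_uh]
  · rw [conjTranspose_mul, conjTranspose_conjTranspose, Matrix.mul_assoc,
      ← Matrix.mul_assoc (W.1)ᴴ, uh_mul, Matrix.one_mul, hV2]
  · have h1 : fro (V * (W.1)ᴴ - A) = ∑ y, (1 - Real.sqrt (r y)) ^ 2 := by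
      rw [← fro_mul_right W.1 (mul_uh W), Matrix.sub_mul, Matrix.mul_assoc, uh_mul,
        Matrix.mul_one, ← hC, hCV]
      have h2 : V - V * diagonal (fun y => ((Real.sqrt (r y) : ℝ) : ℂ)) =
          V * diagonal (fun y => ((1 - Real.sqrt (r y) : ℝ) : ℂ)) := by
        ext x y
        rw [Matrix.sub_apply, Matrix.mul_diagonal, Matrix.mul_diagonal]
        push_cast
        ring
      rw [h2, fro_mul_left _ hV1]
      unfold fro
      refine Finset.sum_congr rfl fun y _ => ?_
      rw [Finset.sum_eq_single y]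
      · rw [Matrix.diagonal_apply_eq, Complex.norm_real, Real.norm_eq_abs, sq_abs]
      · intro z _ hz
        rw [Matrix.diagonal_apply_ne _ (Ne.symm hz), norm_zero]; norm_num
      · intro h; exact absurd (Finset.mem_univ y) h
    have h3 : ∑ y, (1 - Real.sqrt (r y)) ^ 2 ≤ ∑ y, (1 - r y) := by
      refine Finset.sum_le_sum fun y _ => ?_
      have h4 := Real.sq_sqrt (hr0 y)
      have h5 : Real.sqrt (r y) ≤ 1 := Real.sqrt_le_one.mpr (hr1 y)
      have h6 := Real.sqrt_nonneg (r y)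
      nlinarith
    have h7 : ∑ y, (1 - r y) = Fintype.card Y - fro A := by
      rw [Finset.sum_sub_distrib, ← hfroA]
      simp
    rw [h1, ← h7]
    exact h3

/-- large subrepresentations of bounded dimension -/
theorem shrink {G : Type} [Group G] [Fintype G] {S : Type} [Fintype S] [DecidableEq S]
    (σ : G →* Matrix.unitaryGroup S ℂ) (d : ℕ) (hd : d ≤ Fintype.card S) :
    ∃ (k : ℕ) (M : Matrix S (Fin k) ℂ) (σ₁ : G →* Matrix.unitaryGroup (Fin k) ℂ),
      Mᴴ * M = 1 ∧ (∀ g, (σ g).1 * M = M * (σ₁ g).1) ∧ k ≤ d ∧ d ≤ k + Fintype.card G := by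
  classical
  let Inv : Submodule ℂ (EuclideanSpace ℂ S) → Prop := fun W =>
    ∀ g, ∀ v ∈ W, toEuclideanLin (σ g).1 v ∈ W
  let P : ℕ → Prop := fun k => ∃ W, Inv W ∧ Module.finrank ℂ W = k
  have hP0 : P 0 := by
    refine ⟨⊥, ?_, finrank_bot ℂ _⟩
    intro g v hv
    rw [Submodule.mem_bot] at hv
    rw [hv, map_zero]
    exact Submodule.zero_mem _
  set k := Nat.findGreatest P d with hk
  have hPk : P k := Nat.findGreatest_spec (Nat.zero_le d) hP0
  have hkd : k ≤ d := Nat.findGreatest_le d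
  obtain ⟨W, hInv, hWk⟩ := hPk
  have hbig : d ≤ k + Fintype.card G := by
    by_contra hcon
    push Not at hcon
    have hlt : Module.finrank ℂ W < Module.finrank ℂ (EuclideanSpace ℂ S) := by
      rw [finrank_euclideanSpace]
      omega
    have hne : W ≠ ⊤ := by
      rintro rfl
      rw [finrank_top] at hlt
      exact lt_irrefl _ hlt
    obtain ⟨v, -, hv⟩ := SetLike.exists_of_lt (lt_top_iff_ne_top.2 hne)
    let W' : Submodule ℂ (EuclideanSpace ℂ S) :=
      W ⊔ Submodule.span ℂ (Set.range fun g : G => toEuclideanLin (σ g).1 v)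
    have hInv' : Inv W' := by
      intro g w hw
      have h1 : W' ≤ Submodule.comap (toEuclideanLin (σ g).1) W' := by
        refine sup_le ?_ ?_
        · intro w hw
          exact Submodule.mem_sup_left (hInv g w hw)
        · rw [Submodule.span_le]
          rintro _ ⟨h, rfl⟩
          refine Submodule.mem_sup_right ?_
          apply Submodule.subset_span
          refine ⟨g * h, ?_⟩
          show toEuclideanLin (σ (g * h)).1 v = toEuclideanLin (σ g).1 (toEuclideanLin (σ h).1 v)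
          rw [rep_mul, Pool.Agent.H698R5.toLin_mul]
      exact h1 hw
    have hlt' : W < W' := by
      refine lt_of_le_of_ne le_sup_left ?_
      intro h
      apply hv
      rw [h]
      refine Submodule.mem_sup_right (Submodule.subset_span ⟨1, ?_⟩)
      show toEuclideanLin (σ 1).1 v = v
      rw [rep_one]
      show toLp 2 (1 *ᵥ ofLp v) = v
      rw [one_mulVec]
    have hgt : k < Module.finrank ℂ W' := by
      rw [← hWk]
      exact Submodule.finrank_lt_finrank_of_lt hlt'
    have hle : Module.finrank ℂ W' ≤ k + Fintype.card G := by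
      refine (Submodule.finrank_add_le_finrank_add_finrank _ _).trans ?_
      rw [hWk]
      exact Nat.add_le_add_left (finrank_range_le_card _) _
    have h3 : Module.finrank ℂ W' ≤ k :=
      Nat.le_findGreatest (by omega) ⟨W', hInv', rfl⟩
    omega
  rw [← hWk] at hkd hbig
  have hmem : ∀ v, toEuclideanLin (cm W) v ∈ W := by
    intro v
    have h1 : cm W = pj W * cm W := by
      rw [pj_eq, Matrix.mul_assoc, cm_iso, Matrix.mul_one]
    rw [h1, Pool.Agent.H698R5.toLin_mul]
    exact pj_mem W _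
  have hfix : ∀ g, cm W * ((cm W)ᴴ * ((σ g).1 * cm W)) = (σ g).1 * cm W := by
    intro g
    rw [← Matrix.mul_assoc, ← pj_eq]
    have : toEuclideanLin (pj W * ((σ g).1 * cm W)) = toEuclideanLin ((σ g).1 * cm W) := by
      ext1 v
      rw [Pool.Agent.H698R5.toLin_mul, Pool.Agent.H698R5.toLin_mul, pj_id W _ (hInv g _ (hmem v))]
    exact toEuclideanLin.injective this
  refine ⟨Module.finrank ℂ W, cm W, mkRep (fun g => (cm W)ᴴ * ((σ g).1 * cm W)) ?_ ?_ ?_,
    cm_iso W, ?_, hkd, hbig⟩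
  · rw [rep_one, Matrix.one_mul, cm_iso]
  · intro g h
    rw [rep_mul]
    calc (cm W)ᴴ * ((σ g).1 * (σ h).1 * cm W) = (cm W)ᴴ * ((σ g).1 * ((σ h).1 * cm W)) := by
          simp only [Matrix.mul_assoc]
      _ = (cm W)ᴴ * ((σ g).1 * (cm W * ((cm W)ᴴ * ((σ h).1 * cm W)))) := by rw [hfix]
      _ = _ := by simp only [Matrix.mul_assoc]
  · intro g
    rw [rep_inv, conjTranspose_mul, conjTranspose_mul, conjTranspose_conjTranspose,
      Matrix.mul_assoc]
  · intro g
    exact (hfix g).symm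

end Pool.Agent.N225.AS
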